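import Pool.Agent.Work.MP_0df73a_co.Four.Final

/-!
# Positivity of stretched Kostka polynomials for at most four letters

For every partition `la` and every content `mu` with at most four letters the stretched Kostka number
`K_{k la, k mu}` is, for `k ≥ 1`, given by a polynomial in `k` all of whose coefficients are
nonnegative.
-/

set_option autoImplicit false

namespace Pool.Agent.Results.MP_0df73a_co.FourLetters

open Pool.Agent.Work.MP_0df73a_co Pool.Agent.Work.MP_0df73a_co.Four

/-- **The King-Tollu-Toumazet positivity conjecture for Kostka coefficients holds for all contents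
with at most four letters.** Here `la` is any partition, `mu v` is the required number of entries `v`
(zero for `v ≥ 4`), and for each `k ≥ 1` the diagram `D` is the Young diagram of `k la`. -/
theorem result (la : YoungDiagram) (mu : ℕ →₀ ℕ) (hmu : ∀ v, 4 ≤ v → mu v = 0) :
    ∃ P : Polynomial ℚ,
      (∀ k : ℕ, 1 ≤ k → ∀ D : YoungDiagram,
        (∀ i j : ℕ, (i, j) ∈ D ↔ j < k * la.rowLen i) →
        ((Nat.card {T : SemistandardYoungTableau D //
            ∀ v : ℕ, Nat.card {c : ℕ × ℕ // c ∈ D ∧ T c.1 c.2 = v} = k * mu v} : ℕ) : ℚ)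
          = P.eval (k : ℚ)) ∧
      ∀ n : ℕ, 0 ≤ P.coeff n := by
  have hmu' : ∀ k v : ℕ, 4 ≤ v → k * mu v = 0 := fun k v hv => by rw [hmu v hv, mul_zero]
  -- a tableau exists only for at most four rows and the right size
  have hne : ∀ k : ℕ, 1 ≤ k → ∀ D : YoungDiagram, (∀ i j : ℕ, (i, j) ∈ D ↔ j < k * la.rowLen i) →
      ∀ T : SemistandardYoungTableau D,
      (∀ v : ℕ, Nat.card {c : ℕ × ℕ // c ∈ D ∧ T c.1 c.2 = v} = k * mu v) →
      la.rowLen 4 = 0 := by
    intro k hk D hD T hT
    have hR : ∀ i, la.colLen 0 ≤ i → k * la.rowLen i = 0 := by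
      intro i hi
      by_contra hne
      have h1 : (i, 0) ∈ la := YoungDiagram.mem_iff_lt_rowLen.mpr (by
        rcases Nat.eq_zero_or_pos (la.rowLen i) with h | h
        · rw [h, mul_zero] at hne
          exact absurd rfl hne
        · exact h)
      have h2 := YoungDiagram.mem_iff_lt_colLen.mp h1
      omega
    have hG := isGT_cnt (R := la.colLen 0) (n := 4) (L := fun i => k * la.rowLen i)
      (mu := fun v => k * mu v) hD hR (hmu' k) T hT
    have h1 := hG.top 4 4 le_rfl
    have h2 := hG.diag 0 4 0
    rw [hG.zero, zero_add] at h2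
    have h3 : k * la.rowLen 4 = 0 := by
      rw [← h1]
      omega
    rcases mul_eq_zero.mp h3 with h | h
    · omega
    · exact h
  by_cases h4 : la.rowLen 4 = 0
  · have hrow : ∀ k i : ℕ, 4 ≤ i → k * la.rowLen i = 0 := by
      intro k i hi
      have := la.rowLen_anti 4 i hi
      rw [h4] at this
      rw [Nat.le_zero.mp this, mul_zero]
    by_cases hsum : la.rowLen 0 + la.rowLen 1 + la.rowLen 2 + la.rowLen 3 =
        mu 0 + mu 1 + mu 2 + mu 3
    · obtain ⟨P, hP, hev⟩ := exists_poly (la.rowLen 0) (la.rowLen 1) (la.rowLen 2) (la.rowLen 3)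
        (mu 0 + mu 1 + mu 2) (mu 0 + mu 1) (mu 0)
        (by exact_mod_cast la.rowLen_anti 1 2 (by norm_num))
      refine ⟨P, fun k hk D hD => ?_, hP⟩
      have h2 := card_Tab4 (D := D) (L := fun i => k * la.rowLen i) (mu := fun v => k * mu v) hD
        (hrow k) (fun i => Nat.mul_le_mul_left k (la.rowLen_anti i (i + 1) (Nat.le_succ i)))
        (hmu' k) (by
          simp only [← mul_add]
          rw [hsum])
      rw [← hev k hk]
      have h3 : Nat.card {T : SemistandardYoungTableau D //
            ∀ v : ℕ, Nat.card {c : ℕ × ℕ // c ∈ D ∧ T c.1 c.2 = v} = k * mu v} =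
          Nat.card (Tab D fun v => k * mu v) := rfl
      rw [h3, h2]
      simp only [Nat.cast_mul, ← mul_add]
    · refine ⟨0, fun k hk D hD => ?_, fun n => by simp⟩
      have : IsEmpty {T : SemistandardYoungTableau D //
              ∀ v : ℕ, Nat.card {c : ℕ × ℕ // c ∈ D ∧ T c.1 c.2 = v} = k * mu v} := by
        refine ⟨fun T => hsum ?_⟩
        have hG := isGT_cnt (R := 4) (n := 4) (L := fun i => k * la.rowLen i)
          (mu := fun v => k * mu v) hD (hrow k) (hmu' k) T.1 T.2
        have h3 := (gt_sum hG).2.2.2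
        simp only [← mul_add] at h3
        exact Nat.eq_of_mul_eq_mul_left (by omega) h3
      rw [Nat.card_of_isEmpty]
      simp
  · refine ⟨0, fun k hk D hD => ?_, fun n => by simp⟩
    have : IsEmpty {T : SemistandardYoungTableau D //
            ∀ v : ℕ, Nat.card {c : ℕ × ℕ // c ∈ D ∧ T c.1 c.2 = v} = k * mu v} :=
      ⟨fun T => h4 (hne k hk D hD T.1 T.2)⟩
    rw [Nat.card_of_isEmpty]
    simp

end Pool.Agent.Results.MP_0df73a_co.FourLetters
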