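import Pool.Agent.Work.MP_0df73a_co.Tableau

/-!
# Positivity of stretched Kostka polynomials for shapes with at most two rows

For every partition `la` with at most two rows and every content `mu` (any number of letters) the
stretched Kostka number `K_{k la, k mu}` is, for `k ≥ 1`, given by a polynomial in `k` all of whose
coefficients are nonnegative.
-/

set_option autoImplicit false

namespace Pool.Agent.Results.MP_0df73a_co.TwoRow

open Pool.Agent.Work.MP_0df73a_co

/-- **The King-Tollu-Toumazet positivity conjecture for Kostka coefficients holds for all shapes with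
at most two rows.** Here `la` is a partition with at most two rows, `mu v` is the required number of
entries `v`, and for each `k ≥ 1` the diagram `D` is the Young diagram of `k la`. -/
theorem result (la : YoungDiagram) (hla : la.colLen 0 ≤ 2) (mu : ℕ →₀ ℕ) :
    ∃ P : Polynomial ℚ,
      (∀ k : ℕ, 1 ≤ k → ∀ D : YoungDiagram,
        (∀ i j : ℕ, (i, j) ∈ D ↔ j < k * la.rowLen i) →
        ((Nat.card {T : SemistandardYoungTableau D //
            ∀ v : ℕ, Nat.card {c : ℕ × ℕ // c ∈ D ∧ T c.1 c.2 = v} = k * mu v} : ℕ) : ℚ)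
          = P.eval (k : ℚ)) ∧
      ∀ n : ℕ, 0 ≤ P.coeff n := by
  have hrow : ∀ i, 2 ≤ i → la.rowLen i = 0 := by
    intro i hi
    by_contra hne
    have h1 : (i, 0) ∈ la := YoungDiagram.mem_iff_lt_rowLen.mpr (by omega)
    have h2 := YoungDiagram.mem_iff_lt_colLen.mp h1
    omega
  have hle : la.rowLen 1 ≤ la.rowLen 0 := la.rowLen_anti 0 1 (by norm_num)
  obtain ⟨n, hn⟩ : ∃ n : ℕ, ∀ v, n ≤ v → mu v = 0 := by
    refine ⟨mu.support.sup id + 1, fun v hv => ?_⟩
    by_contra hne
    have : v ≤ mu.support.sup id := Finset.le_sup (f := id) (Finsupp.mem_support_iff.mpr hne)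
    omega
  have hD : ∀ k : ℕ, ∀ D : YoungDiagram, (∀ i j : ℕ, (i, j) ∈ D ↔ j < k * la.rowLen i) →
      TwoRows D (k * la.rowLen 0) (k * la.rowLen 1) := by
    intro k D h i j
    rw [h i j]
    constructor
    · intro hj
      rcases Nat.lt_or_ge i 2 with hi | hi
      · have : i = 0 ∨ i = 1 := by omega
        rcases this with rfl | rfl
        · exact Or.inl ⟨rfl, hj⟩
        · exact Or.inr ⟨rfl, hj⟩
      · rw [hrow i hi] at hj
        omega
    · rintro (⟨rfl, hj⟩ | ⟨rfl, hj⟩) <;> exact hj
  by_cases hsum : ∑ v ∈ Finset.range n, mu v = la.rowLen 0 + la.rowLen 1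
  · obtain ⟨P, hP, hev⟩ := exists_kost_poly n (fun v => mu v) (la.rowLen 1) (by omega)
    refine ⟨P, fun k hk D h => ?_, hP⟩
    have h2 := card_Tab (hD k D h) (Nat.mul_le_mul_left k hle) (fun v => k * mu v) n
      (fun v hv => by rw [hn v hv, mul_zero]) (by rw [← Finset.mul_sum, hsum]; ring)
    rw [hev k hk, ← h2]
    push_cast
    rfl
  · refine ⟨0, fun k hk D h => ?_, fun n => by simp⟩
    have : IsEmpty {T : SemistandardYoungTableau D //
            ∀ v : ℕ, Nat.card {c : ℕ × ℕ // c ∈ D ∧ T c.1 c.2 = v} = k * mu v} := by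
      refine ⟨fun T => hsum ?_⟩
      have h3 := content_sum (hD k D h) (fun v => k * mu v) n
        (fun v hv => by rw [hn v hv, mul_zero]) T.1 T.2
      rw [← Finset.mul_sum, ← mul_add] at h3
      exact Nat.eq_of_mul_eq_mul_left (by omega) h3
    rw [Nat.card_of_isEmpty]
    simp

end Pool.Agent.Results.MP_0df73a_co.TwoRow
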